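import Pool.Agent.H76.CW.StmtC

/-! MP_5607ba_lc, board `cw_modules`, row FNC: the components of a symmetric table when some of
them are replaced. -/

set_option autoImplicit false

open Set Pool.Agent.TK Pool.Agent.H71.VK

namespace Pool.Agent.CW

namespace FNC

variable {C : Type}

/-- values of pairs in a position -/
lemma bn_PI {M N : St (C × ℕ)} {p : List (ℕ × ℕ)} (h : PI M N p) {u w x y : ℕ}
    (hu : (u, x) ∈ p) (hw : (w, y) ∈ p) : bn M u w = bn N x y := by
  have h1 := h.2.2 [(u, x), (w, y)] (by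
    intro z hz
    rcases List.mem_cons.1 hz with rfl | hz
    · exact hu
    · rw [List.mem_singleton.1 hz]
      exact hw)
  unfold bn
  simp only [List.map_cons, List.map_nil] at h1
  rw [h1]

lemma tp_PI {M N : St (C × ℕ)} {p : List (ℕ × ℕ)} (h : PI M N p) {L : List ℕ}
    (hL : ∀ s ∈ L, (s, s) ∈ p) {u x : ℕ} (hu : (u, x) ∈ p) :
    tp (bn M) L u = tp (bn N) L x := by
  unfold tp ee
  refine List.map_congr_left fun s hs => ?_
  rw [bn_PI h hu (hL s hs), bn_PI h (hL s hs) hu]

lemma ar_PI {M N : St (C × ℕ)} {p : List (ℕ × ℕ)} (h : PI M N p) {L : List ℕ} {F : Tab}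
    (hL : ∀ s ∈ L, (s, s) ∈ p) {u w x y : ℕ} (hu : (u, x) ∈ p) (hw : (w, y) ∈ p)
    (ha : Ar (bn M) L F u w) : Ar (bn N) L F x y := by
  unfold Ar ee at ha ⊢
  rw [← tp_PI h hL hu, ← tp_PI h hL hw, ← bn_PI h hu hw, ← bn_PI h hw hu]
  exact ha

/-- paths are transferred along positions -/
lemma path_tr {M N : St (C × ℕ)} {D : Set ℕ} {L : List ℕ} {F : Tab} {u u' : ℕ}
    (h : Relation.ReflTransGen (fun a a' => Ar (bn M) L F a a' ∧ a' ∈ D) u u') :
    ∃ k : ℕ, ∀ (p : List (ℕ × ℕ)) (x x' : ℕ), bf M N D D (Rk.sucN k Rk.zero) p →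
      (∀ s ∈ L, (s, s) ∈ p) → (u, x) ∈ p → (u', x') ∈ p →
      Relation.ReflTransGen (fun a a' => Ar (bn N) L F a a' ∧ a' ∈ D) x x' := by
  induction h using Relation.ReflTransGen.head_induction_on with
  | refl =>
    refine ⟨0, fun p x x' hb _ hx hx' => ?_⟩
    have h1 : x = x' := ((bf_PI hb).1 _ hx _ hx').1 rfl
    rw [h1]
  | @head a w hs _ ih =>
    obtain ⟨k, hk⟩ := ih
    refine ⟨k + 1, fun p x x' hb hL hx hx' => ?_⟩
    obtain ⟨y, hy, hb'⟩ := (hb 0).2.1 w hs.2
    have h1 := hk ((w, y) :: p) y x' hb' (fun s hs' => List.mem_cons_of_mem _ (hL s hs'))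
      List.mem_cons_self (List.mem_cons_of_mem _ hx')
    refine Relation.ReflTransGen.head ⟨?_, hy⟩ h1
    exact ar_PI (bf_PI hb') (fun s hs' => List.mem_cons_of_mem _ (hL s hs'))
      (List.mem_cons_of_mem _ hx) List.mem_cons_self hs.1

lemma zip_self_mem {L : List ℕ} {s : ℕ} (h : s ∈ L) : (s, s) ∈ L.zip L := by
  rw [← dg_eq_zip, mem_dg]
  exact ⟨rfl, h⟩

/-- any two points of `D` are joined by a path inside `D` -/
lemma cl_path {c : ℕ → ℕ → ℕ} {P : Set ℕ} {L : List ℕ} {F : Tab} {x y : ℕ}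
    (h : y ∈ cl c P L F x) : Relation.ReflTransGen
      (fun a a' => Ar c L F a a' ∧ a' ∈ cl c P L F x) x y := by
  induction h with
  | refl => exact Relation.ReflTransGen.refl
  | tail h1 h2 ih => exact ih.tail ⟨h2.1, Relation.ReflTransGen.tail h1 h2⟩

end FNC

open FNC in
theorem pf_FNC {C : Type} (hINV : T_INV C) (hRPB : T_RPB C) : T_FNC C := by
  intro c0 n b M π S F v R hF hv hRA havo T
  obtain ⟨D, hD⟩ : ∃ D : ℕ → Set ℕ, D = fun i => st (bn M) ((S, F, v i, true) :: π) := ⟨_, rfl⟩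
  have hDi : ∀ i, st (bn M) ((S, F, v i, true) :: π) = D i := fun i => by rw [hD]
  have hDc : ∀ i, D i = cl (bn M) (st (bn M) π) (S ++ zl π) F (v i) := fun i => by
    rw [← hDi]
    rfl
  rw [← hD] at hRA ⊢
  have hav : ∀ i, ∀ a ∈ dl π, a ∉ D i := fun i a ha => by
    rw [← hDi]
    exact havo i a ha
  simp only [hDi]
  obtain ⟨L, hL⟩ : ∃ L : List ℕ, L = S ++ zl π := ⟨_, rfl⟩
  obtain ⟨-, r1, r2, -, -, r5, r6, r7⟩ := hRPB ℕ c0 n b M D (fun _ => S ++ zl π) R hRA T
  have hVM : Vd (bn M) π := (vd_cons.1 (hv 0)).1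
  have hsub : ∀ i, ∀ y ∈ D i, y ∈ st (bn M) π ∧ y ∉ S ++ zl π := by
    intro i y hy
    rw [← hDi] at hy
    exact st_sub (hv i) y hy
  obtain ⟨i1, -, i3⟩ := hINV ℕ c0 n b M D (fun _ => S ++ zl π) R hRA T π
    (fun a ha i _ => hav i a ha)
  have hst := i3 fun i _ => Or.inl fun y hy => (hsub i y hy).1
  have hLD : ∀ s ∈ S ++ zl π, ∀ j, s ∉ D j := fun s hs j => hRA.avo 0 j s hs
  obtain ⟨M', hM'⟩ : ∃ M' : St (C × ℕ), M' = rp M D (fun _ => S ++ zl π) R T := ⟨_, rfl⟩
  obtain ⟨g, hg⟩ : ∃ g : ℕ → ℕ, g = rh M D (fun _ => S ++ zl π) R T := ⟨_, rfl⟩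
  rw [← hM'] at r5 r6 r7 i1 i3 hst ⊢
  rw [← hg] at r1 r2 r6
  rw [← hL] at hsub hLD hDc r2 r7
  -- values
  have hee : ∀ x y, (∀ i ∈ T, x ∈ D i → y ∉ D i) → ee (bn M') x y = ee (bn M) (g x) (g y) := by
    intro x y h
    unfold ee
    rw [r6 x y h, r6 y x fun i hi h1 h2 => h i hi h2 h1]
  have htp : ∀ x, tp (bn M') L x = tp (bn M) L (g x) := by
    intro x
    unfold tp
    refine List.map_congr_left fun s hs => ?_
    rw [hee x s fun i _ _ => hLD s hs i, r1 s fun i _ => hLD s hs i]
  have hdj : ∀ i j, ∀ x ∈ D i, x ∈ D j → i = j := by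
    intro i j x h1 h2
    by_contra h
    exact Set.disjoint_left.1 (hRA.disj i j h) h1 h2
  have hgD : ∀ i, ∀ x ∈ D i, g x ∈ D i := by
    intro i x hx
    by_cases hi : i ∈ T
    · exact (r2 i hi x hx).1
    · rw [r1 x fun j hj h => hi (hdj i j x hx h ▸ hj)]
      exact hx
  have hcl : ∀ x, st (bn M') ((S, F, x, true) :: π) = cl (bn M') (st (bn M) π) L F x := by
    intro x
    rw [st_true, hst, hL]
  refine ⟨i1.2 hVM, hst, ?_, ?_⟩
  · intro i x hx
    rw [hcl]
    apply Set.Subset.antisymm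
    · refine cl_min hx ?_
      intro u hu w hw hwL har
      by_contra hwD
      apply har
      have h1 : ∀ j ∈ T, u ∈ D j → w ∉ D j := by
        intro j _ h2
        rw [← hdj i j u hu h2]
        exact hwD
      rw [hee u w h1, htp, htp]
      have hgu : g u ∈ D i := hgD i u hu
      have hgw : g w ∈ st (bn M) π ∧ g w ∉ L ∧ g w ∉ D i := by
        by_cases hj : ∃ j ∈ T, w ∈ D j
        · obtain ⟨j, hjT, hj⟩ := hj
          have h2 := hgD j w hj
          have h3 := hsub j _ h2
          refine ⟨h3.1, h3.2, fun h4 => ?_⟩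
          exact hwD (hdj i j _ h4 h2 ▸ hj)
        · have h2 : g w = w := r1 w fun j hj1 hj2 => hj ⟨j, hj1, hj2⟩
          rw [h2]
          exact ⟨hw, hwL, hwD⟩
      rw [hDc] at hgu hgw
      exact cl_out hgu hgw.1 hgw.2.1 hgw.2.2
    · -- all points of the block are reached
      have hconn : ∀ y ∈ D i, ∀ y' ∈ D i, Relation.ReflTransGen
          (fun a a' => Ar (bn M) L F a a' ∧ a' ∈ D i) y y' := by
        intro y hy y' hy'
        have h1 : cl (bn M) (st (bn M) π) L F y = D i := by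
          rw [hDc]
          rw [hDc] at hy
          have h2 := hv i
          have h3 : v i ∉ L := by
            rw [hL]
            exact base_not_mem h2
          exact cl_eq hF (vd_cons.1 h2).2.2.1 h3 hy
        rw [← h1] at hy' ⊢
        exact cl_path hy'
      have htr : ∀ e : ℕ → ℕ → ℕ, (∀ a ∈ D i, ∀ a' ∈ D i, Ar e L F a a' → Ar (bn M') L F a a') →
          ∀ y ∈ D i, ∀ y', Relation.ReflTransGen (fun a a' => Ar e L F a a' ∧ a' ∈ D i) y y' →
          Relation.ReflTransGen (fun a a' => Ar (bn M') L F a a' ∧ a' ∈ D i) y y' := by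
        intro e he y hy y' h
        have h5 : y' ∈ D i ∧
            Relation.ReflTransGen (fun a a' => Ar (bn M') L F a a' ∧ a' ∈ D i) y y' := by
          induction h with
          | refl => exact ⟨hy, Relation.ReflTransGen.refl⟩
          | tail _ h4 ih => exact ⟨h4.2, ih.2.tail ⟨he _ ih.1 _ h4.2 h4.1, h4.2⟩⟩
        exact h5.2
      have key : ∀ y ∈ D i, ∀ y' ∈ D i, Relation.ReflTransGen
          (fun a a' => Ar (bn M') L F a a' ∧ a' ∈ D i) y y' := by
        intro y hy y' hy'
        by_cases hi : i ∈ T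
        · -- transfer from the structure `R i`
          have hb : bf M (R i) (D i) (D i) b ((S ++ zl π).zip (S ++ zl π)) := (hRA.fb i).2
          rw [← hL] at hb
          have hz : ∀ r : Rk, RLe (C × ℕ) Rk.zero r := fun r _ _ _ _ _ h => bf_PI h
          have h0 : RLe (C × ℕ) (Rk.lim (Rk.lim Rk.zero)) b :=
            (RLe.lim_mono (RLe.lim_mono (hz om2))).trans hRA.base
          have h1 := h0 _ _ _ _ _ hb
          obtain ⟨w, hw1, hw2, hw3⟩ := lim_ext' h1 [y, y'] (by
            intro a ha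
            rcases List.mem_cons.1 ha with rfl | ha
            · exact hy
            · rw [List.mem_singleton.1 ha]
              exact hy')
          obtain ⟨u, u', rfl⟩ : ∃ u u', w = [u, u'] := List.length_eq_two.1 hw1
          have hu : u ∈ D i := hw2 u (by simp)
          have hu' : u' ∈ D i := hw2 u' (by simp)
          obtain ⟨k, hk⟩ := path_tr (N := R i) (hconn u hu u' hu')
          have h2 := hk _ y y' (RLe.lim' k Rk.zero _ _ _ _ _ hw3)
            (fun s hs => List.mem_append_right _ (zip_self_mem hs)) (by simp) (by simp)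
          -- arcs of `R i` are arcs of the replaced structure
          exact htr (bn (R i)) (fun a ha a' ha' har => by
            unfold Ar ee at har ⊢
            rw [r7 i hi a ha, r7 i hi a' ha', r5 i hi a ha a' ha', r5 i hi a' ha' a ha]
            exact har) y hy y' h2
        · refine htr (bn M) (fun a ha a' ha' har => ?_) y hy y' (hconn y hy y' hy')
          have h3 : ∀ a ∈ D i, g a = a := fun a ha =>
            r1 a fun j hj hj2 => hi (hdj i j a ha hj2 ▸ hj)
          unfold Ar at har ⊢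
          rw [htp, htp, hee a a' fun j hj hj2 _ => hi (hdj i j a ha hj2 ▸ hj), h3 a ha, h3 a' ha']
          exact har
      intro y hy
      have h1 := key x hx y hy
      refine Relation.ReflTransGen.mono (r := fun a a' => Ar (bn M') L F a a' ∧ a' ∈ D i)
        (fun a a' h => ⟨h.1, (hsub i a' h.2).1, (hsub i a' h.2).2⟩) _ _ h1
  · intro x hx hxS hxD
    obtain ⟨-, -, j3⟩ := hINV ℕ c0 n b M D (fun _ => S ++ zl π) R hRA T ((S, F, x, true) :: π) (by
      intro a ha i _
      rw [dl_cons] at ha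
      rcases List.mem_cons.1 ha with rfl | ha
      · exact hxD i
      · rcases List.mem_append.1 ha with ha | ha
        · exact hRA.avo 0 i a (List.mem_append_left _ ha)
        · exact hav i a ha)
    rw [← hM'] at j3
    refine j3 fun i _ => Or.inr ?_
    rw [Set.disjoint_left]
    intro y hy hy'
    rw [st_true, ← hL] at hy'
    have hxL : x ∉ L := by
      rw [hL, List.mem_append]
      rintro (h | h)
      · exact hxS h
      · exact zl_disj hVM x h hx
    have h1 := cl_symm hF hx hxL hy'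
    have h2 : cl (bn M) (st (bn M) π) L F y = D i := by
      rw [hDc] at hy ⊢
      have h3 : v i ∉ L := by
        rw [hL]
        exact base_not_mem (hv i)
      exact cl_eq hF (vd_cons.1 (hv i)).2.2.1 h3 hy
    rw [h2] at h1
    exact hxD i h1

end Pool.Agent.CW
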